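import Mathlib
import Pool.Agent.V117.PFg

set_option linter.unusedSectionVars false

namespace Pool.Agent.Results.MP_f60a12_co.FiniteQuotients

open Pool.Agent.V117.PF

/-- `S` is product-free: no element of `S` is a product of two elements of `S`. -/
def ProductFree {A : Type} (S : Set (FreeGroup A)) : Prop :=
  ∀ x ∈ S, ∀ y ∈ S, x * y ∉ S

/-- The proportion `|B ∩ F(n)| / |F(n)|`, where `F(n)` is the set of elements of the free group
whose reduced word has length `n`. -/
noncomputable def layer {A : Type} [DecidableEq A] (B : Set (FreeGroup A)) (n : ℕ) : ℝ :=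
  (Set.ncard {f | f ∈ B ∧ f.toWord.length = n} : ℝ) /
    (Set.ncard {f : FreeGroup A | f.toWord.length = n} : ℝ)

/-- The average `d^I(B)` for the interval `{a, a+1, ..., a+L-1}`, where `I = (a, L)`. -/
noncomputable def dI {A : Type} [DecidableEq A] (B : Set (FreeGroup A)) (I : ℕ × ℕ) : ℝ :=
  (∑ n ∈ Finset.Ico I.1 (I.1 + I.2), layer B n) / I.2

/-- The upper Banach density: the limsup of `d^I(B)` as both the least element and the length
of the interval `I` tend to infinity. -/
noncomputable def dStar {A : Type} [DecidableEq A] (B : Set (FreeGroup A)) : ℝ :=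
  Filter.limsup (dI B) Filter.atTop

/-- The set `T_λ` of a parity labelling `l` of the alphabet (a letter and its inverse have the same
label, as `-1 = 1` modulo 2): the elements whose reduced word has label sum `1`. -/
def Tlam {A : Type} [DecidableEq A] (l : A → ZMod 2) : Set (FreeGroup A) :=
  {f | (f.toWord.map (fun x => l x.1)).sum = 1}

/-- `S` is recognised by a finite group: it is the preimage of a subset of a finite group under a
homomorphism. -/
def GroupRecognised {A : Type} (S : Set (FreeGroup A)) : Prop :=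
  ∃ (G : Type) (_ : Group G) (_ : Finite G) (φ : FreeGroup A →* G) (T : Set G), S = φ ⁻¹' T

section fin
open scoped Pointwise
variable {G : Type} [Group G] [Fintype G] [DecidableEq G]

/-- a product-free subset with more than two fifths of the elements avoids a subgroup of index 2 -/
lemma index_two {T : Finset G} (h : ∀ x ∈ T, ∀ y ∈ T, x * y ∉ T)
    (hc : 2 * Fintype.card G < 5 * T.card) : ∃ L : Subgroup G, L.index = 2 ∧ ∀ t ∈ T, t ∉ L := by
  have hm : 0 < T.card := by omega
  have hne : T.Nonempty := Finset.card_pos.1 hm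
  have hQ : ∀ g ∈ T * T⁻¹, g ∈ T → False := by
    intro g h1 h2
    obtain ⟨x, hx, y, hy, rfl⟩ := Finset.mem_mul.1 h1
    rw [Finset.mem_inv'] at hy
    apply h _ h2 _ hy
    simpa using hx
  have hP : ∀ g ∈ T⁻¹ * T, g ∈ T → False := by
    intro g h1 h2
    obtain ⟨x, hx, y, hy, rfl⟩ := Finset.mem_mul.1 h1
    rw [Finset.mem_inv'] at hx
    apply h _ hx _ h2
    simpa using hy
  have hPc : (T⁻¹ * T).card + T.card ≤ Fintype.card G := by
    rw [← Finset.card_union_of_disjoint]
    · exact Finset.card_le_univ _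
    · rw [Finset.disjoint_left]; exact hP
  have hclo : Clo T := by
    intro g hg k hk
    have := cP hg
    have := cP hk
    exact inter (by omega)
  refine ⟨K T hne hclo, ?_, ?_⟩
  · have hcard : T.card ≤ Nat.card (K T hne hclo) := by
      rw [card_K]
      exact Finset.card_le_card_mul_right (Finset.inv_nonempty_iff.2 hne)
    have hidx := (K T hne hclo).card_mul_index
    rw [Nat.card_eq_fintype_card (α := G)] at hidx
    have hi0 : (K T hne hclo).index ≠ 0 := Subgroup.index_ne_zero_of_finite
    have hi1 : (K T hne hclo).index ≠ 1 := by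
      intro h1
      rw [Subgroup.index_eq_one] at h1
      obtain ⟨t, ht⟩ := hne
      have h2 : t ∈ K T ⟨t, ht⟩ hclo := by rw [h1]; trivial
      exact hQ t h2 ht
    have hi3 : (K T hne hclo).index < 3 := by
      by_contra h3
      push Not at h3
      nlinarith
    omega
  · intro t ht h1
    exact hQ t h1 ht

end fin

section dens
variable {A : Type} [Fintype A] [DecidableEq A] [Nonempty A]

/-- the values of the letters -/
def letter {G : Type} [Group G] (φ : FreeGroup A →* G) (x : A × Bool) : G := φ (FreeGroup.mk [x])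

lemma val_letter {G : Type} [Group G] (φ : FreeGroup A →* G) (w : List (A × Bool)) :
    val (letter φ) w = φ (FreeGroup.mk w) := by
  induction w with
  | nil => simp; exact (map_one φ).symm
  | cons x w ih =>
    rw [val_cons, ih, letter, ← map_mul, FreeGroup.mul_mk]; rfl

lemma letter_bar {G : Type} [Group G] (φ : FreeGroup A →* G) (x : A × Bool) :
    letter φ (bar x) = (letter φ x)⁻¹ := by
  unfold letter
  rw [← map_inv, FreeGroup.inv_mk]
  rfl

/-- all reduced words of length `n + 1` -/
noncomputable def AW (A : Type) [Fintype A] [DecidableEq A] (n : ℕ) : Finset (List (A × Bool)) :=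
  Finset.univ.biUnion (fun x => RW n x)

lemma mem_AW (n : ℕ) (w : List (A × Bool)) :
    w ∈ AW A n ↔ w.length = n + 1 ∧ FreeGroup.IsReduced w := by
  unfold AW
  simp only [Finset.mem_biUnion, Finset.mem_univ, true_and]
  constructor
  · rintro ⟨x, hx⟩
    obtain ⟨v, rfl, h2, h3⟩ := (mem_RW n x w).1 hx
    exact ⟨by simp [h2], h3⟩
  · rintro ⟨h1, h2⟩
    cases w with
    | nil => simp at h1
    | cons x v => exact ⟨x, (mem_RW n x _).2 ⟨v, rfl, by simpa using h1, h2⟩⟩

lemma sum_AW (n : ℕ) (F : List (A × Bool) → ℝ) : ∑ w ∈ AW A n, F w = ∑ x, ∑ w ∈ RW n x, F w := by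
  unfold AW
  rw [Finset.sum_biUnion]
  intro y _ z _ hyz
  simp only [Function.onFun]
  rw [Finset.disjoint_left]
  intro w h1 h2
  obtain ⟨u, e1, _⟩ := (mem_RW n y _).1 h1
  obtain ⟨u', e2, _⟩ := (mem_RW n z _).1 h2
  rw [e1] at e2
  simp only [List.cons.injEq] at e2
  exact hyz e2.1

lemma ncard_layer (P : FreeGroup A → Prop) [DecidablePred P] (n : ℕ) :
    Set.ncard {f : FreeGroup A | P f ∧ f.toWord.length = n + 1} =
      ((AW A n).filter (fun w => P (FreeGroup.mk w))).card := by
  rw [← Set.ncard_coe_finset, ← Set.ncard_image_of_injective _ FreeGroup.toWord_injective]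
  congr 1
  ext w
  simp only [Set.mem_image, Set.mem_setOf_eq, Finset.coe_filter, mem_AW]
  constructor
  · rintro ⟨f, ⟨h1, h2⟩, rfl⟩
    refine ⟨⟨h2, FreeGroup.isReduced_toWord⟩, ?_⟩
    rw [FreeGroup.mk_toWord]; exact h1
  · rintro ⟨⟨h1, h2⟩, h3⟩
    have e : (FreeGroup.mk w).toWord = w := by
      rw [FreeGroup.toWord_mk]; exact h2.reduce_eq
    exact ⟨FreeGroup.mk w, ⟨h3, by rw [e]; exact h1⟩, e⟩

lemma card_layer (n : ℕ) : (Set.ncard {f : FreeGroup A | f.toWord.length = n + 1} : ℝ) =
    Fintype.card (A × Bool) * ((Fintype.card (A × Bool) : ℝ) - 1) ^ n := by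
  have h1 := ncard_layer (A := A) (fun _ => True) n
  simp only [true_and, Finset.filter_true] at h1
  rw [h1]
  have h2 : ((AW A n).card : ℝ) = ∑ _w ∈ AW A n, (1 : ℝ) := by simp
  rw [h2, sum_AW, Finset.sum_congr rfl fun x _ => card_RW n x, Finset.sum_const, Finset.card_univ,
    nsmul_eq_mul]

variable {G : Type} [Group G] [Fintype G] [DecidableEq G]

lemma layer_le (φ : FreeGroup A →* G) (T : Finset G) (S : Set (FreeGroup A)) (hS : ∀ f ∈ S, φ f ∈ T)
    (n : ℕ) : layer S (n + 1) ≤ ∑ g ∈ T, pp (letter φ) n g := by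
  classical
  have hX := cX (A := A)
  unfold layer pp
  rw [card_layer, ← Finset.sum_div]
  have h0 : (0 : ℝ) ≤ (Fintype.card (A × Bool) : ℝ) - 1 := by linarith
  apply div_le_div_of_nonneg_right _ (by positivity)
  have h1 := ncard_layer (A := A) (fun f => f ∈ S) n
  rw [h1]
  have h2 : ((AW A n).filter (fun w => FreeGroup.mk w ∈ S)).card ≤
      ((AW A n).filter (fun w => val (letter φ) w ∈ T)).card := by
    apply Finset.card_le_card
    intro w hw
    rw [Finset.mem_filter] at hw ⊢
    refine ⟨hw.1, ?_⟩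
    rw [val_letter]; exact hS _ hw.2
  have h3 : (((AW A n).filter (fun w => val (letter φ) w ∈ T)).card : ℝ) =
      ∑ g ∈ T, u (letter φ) n g := by
    unfold u v
    rw [Finset.card_filter]
    push_cast
    rw [sum_AW, Finset.sum_comm]
    apply Finset.sum_congr rfl
    intro x _
    rw [Finset.sum_comm]
    apply Finset.sum_congr rfl
    intro w _
    simp
  rw [← h3]
  exact_mod_cast h2

lemma dI_le (φ : FreeGroup A →* G) (hφ : Function.Surjective φ) (T : Finset G) :
    ∃ C : ℝ, ∀ (S : Set (FreeGroup A)) (_ : ∀ f ∈ S, φ f ∈ T) (I : ℕ × ℕ), 2 ≤ I.1 → 0 < I.2 →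
      dI S I ≤ T.card / Fintype.card G + C / I.2 := by
  have hgen : ∀ g : G, ∃ w, val (letter φ) w = g := by
    intro g
    obtain ⟨f, rfl⟩ := hφ g
    exact ⟨f.toWord, by rw [val_letter, FreeGroup.mk_toWord]⟩
  obtain ⟨C, _, hC⟩ := a_bound (letter φ) hgen
  refine ⟨T.card * C, fun S hS I hI1 hI => ?_⟩
  obtain ⟨a, ha⟩ : ∃ a, I.1 = a + 2 := ⟨I.1 - 2, by omega⟩
  have h1 : dI S I ≤ ∑ g ∈ T, qq (letter φ) a I.2 g := by
    unfold dI qq
    rw [← Finset.sum_div, Finset.sum_comm]
    apply div_le_div_of_nonneg_right _ (by positivity)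
    rw [Finset.sum_Ico_eq_sum_range, Nat.add_sub_cancel_left]
    apply Finset.sum_le_sum
    intro i _
    have e : I.1 + i = (a + 1 + i) + 1 := by omega
    rw [e]
    exact layer_le φ T S hS _
  refine h1.trans ?_
  have h2 : ∀ g ∈ T, qq (letter φ) a I.2 g ≤ 1 / Fintype.card G + C * (1 / I.2) := by
    intro g _
    exact hC (qq (letter φ) a I.2) (1 / I.2) (by positivity) (sum_qq _ a hI)
      (qq_step _ (letter_bar φ) a hI) g
  refine (Finset.sum_le_sum h2).trans ?_
  rw [Finset.sum_const, nsmul_eq_mul]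
  apply le_of_eq
  ring

lemma dStar_le (φ : FreeGroup A →* G) (hφ : Function.Surjective φ) (T : Finset G)
    (S : Set (FreeGroup A)) (hS : ∀ f ∈ S, φ f ∈ T) : dStar S ≤ T.card / Fintype.card G := by
  obtain ⟨C, hC⟩ := dI_le φ hφ T
  have hev : ∀ᶠ I : ℕ × ℕ in Filter.atTop, 2 ≤ I.1 ∧ 0 < I.2 := by
    rw [← Filter.prod_atTop_atTop_eq]
    exact (Filter.tendsto_fst.eventually (Filter.eventually_ge_atTop 2)).and
      (Filter.tendsto_snd.eventually (Filter.eventually_gt_atTop 0))
  have hlim : Filter.Tendsto (fun I : ℕ × ℕ => (T.card : ℝ) / Fintype.card G + C / I.2)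
      Filter.atTop (nhds ((T.card : ℝ) / Fintype.card G)) := by
    have h1 : Filter.Tendsto (fun I : ℕ × ℕ => C / (I.2 : ℝ)) Filter.atTop (nhds 0) := by
      rw [← Filter.prod_atTop_atTop_eq]
      exact (tendsto_const_div_atTop_nhds_zero_nat C).comp Filter.tendsto_snd
    have h2 := h1.const_add ((T.card : ℝ) / Fintype.card G)
    simpa using h2
  have hnonneg : ∀ I, 0 ≤ dI S I := by
    intro I
    unfold dI layer
    apply div_nonneg _ (by positivity)
    apply Finset.sum_nonneg
    intro n _
    positivity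
  unfold dStar
  calc Filter.limsup (dI S) Filter.atTop
      ≤ Filter.limsup (fun I : ℕ × ℕ => (T.card : ℝ) / Fintype.card G + C / I.2) Filter.atTop := by
        apply Filter.limsup_le_limsup
        · filter_upwards [hev] with I hI
          exact hC S hS I hI.1 hI.2
        · exact Filter.isCoboundedUnder_le_of_le Filter.atTop hnonneg
        · exact hlim.isBoundedUnder_le
    _ = _ := hlim.limsup_eq

end dens

lemma parity {A H : Type} [DecidableEq A] [Group H] (φ : FreeGroup A →* H) (L : Subgroup H)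
    (hL : L.index = 2) (l : A → ZMod 2) (hl : ∀ x : A × Bool, (l x.1 = 1 ↔ letter φ x ∉ L))
    (w : List (A × Bool)) : (w.map (fun x => l x.1)).sum = 1 ↔ val (letter φ) w ∉ L := by
  have h2 : ∀ a b : ZMod 2, (a + b = 1 ↔ ¬ (a = 1 ↔ b = 1)) := by decide
  induction w with
  | nil => simp [L.one_mem]
  | cons x w ih =>
    have e1 : ((x :: w).map (fun x => l x.1)).sum = l x.1 + (w.map (fun x => l x.1)).sum := by simp
    have e2 := Subgroup.mul_mem_iff_of_index_two hL (a := letter φ x) (b := val (letter φ) w)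
    have e3 := h2 (l x.1) (w.map (fun x => l x.1)).sum
    have e4 := hl x
    rw [e1, val_cons]
    tauto

/-- A product-free subset of a free group of finite rank that is recognised by a finite group and
whose upper Banach density is more than `2/5` is contained in the set `T_λ` of a labelling. -/
theorem result {A : Type} [Fintype A] [DecidableEq A] [Nonempty A] (S : Set (FreeGroup A))
    (hrec : GroupRecognised S) (hfree : ProductFree S) (hd : 2 / 5 < dStar S) :
    ∃ l : A → ZMod 2, S ⊆ Tlam l := by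
  classical
  obtain ⟨G, hG1, hG2, φ, T, rfl⟩ := hrec
  haveI : Fintype φ.range := Fintype.ofFinite _
  let ψ : FreeGroup A →* φ.range := φ.rangeRestrict
  have hψ : Function.Surjective ψ := φ.rangeRestrict_surjective
  let T' : Finset φ.range := Finset.univ.filter (fun h => (h : G) ∈ T)
  have hT' : ∀ h, h ∈ T' ↔ (h : G) ∈ T := by intro h; simp [T']
  have hval : ∀ f : FreeGroup A, f ∈ φ ⁻¹' T ↔ ψ f ∈ T' := by
    intro f
    rw [hT']; rfl
  have hPF : ∀ x ∈ T', ∀ y ∈ T', x * y ∉ T' := by
    intro x hx y hy hxy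
    obtain ⟨f, rfl⟩ := hψ x
    obtain ⟨g, rfl⟩ := hψ y
    apply hfree f ((hval f).2 hx) g ((hval g).2 hy)
    rw [hval, map_mul]
    exact hxy
  have hle := dStar_le ψ hψ T' (φ ⁻¹' T) (fun f hf => (hval f).1 hf)
  have h1 := hd.trans_le hle
  have hpos : (0 : ℝ) < Fintype.card φ.range := by exact_mod_cast Fintype.card_pos
  rw [lt_div_iff₀ hpos] at h1
  have h2 : 2 * Fintype.card φ.range < 5 * T'.card := by
    have : 2 * (Fintype.card φ.range : ℝ) < 5 * T'.card := by linarith
    exact_mod_cast this
  obtain ⟨L, hL, hLT⟩ := index_two hPF h2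
  let l : A → ZMod 2 := fun a => if letter ψ (a, true) ∈ L then 0 else 1
  have hl : ∀ x : A × Bool, (l x.1 = 1 ↔ letter ψ x ∉ L) := by
    have h01 : (0 : ZMod 2) ≠ 1 := by decide
    rintro ⟨a, b⟩
    have h3 : l a = 1 ↔ letter ψ (a, true) ∉ L := by
      simp only [l]
      split_ifs with h4
      · simp [h4]
      · simp [h4]
    cases b with
    | true => exact h3
    | false =>
      rw [show l (a, false).1 = l a from rfl, h3]
      have h4 : letter ψ (a, false) = (letter ψ (a, true))⁻¹ := letter_bar ψ (a, true)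
      rw [h4, L.inv_mem_iff]
  refine ⟨l, fun f hf => ?_⟩
  show (f.toWord.map (fun x => l x.1)).sum = 1
  rw [parity ψ L hL l hl, val_letter, FreeGroup.mk_toWord]
  exact hLT _ ((hval f).1 hf)

end Pool.Agent.Results.MP_f60a12_co.FiniteQuotients
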